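import Mathlib

/-! Elementary number theory: the divisor bound and coprime integers in short intervals
(helper file). -/

set_option linter.unusedSectionVars false
set_option linter.unusedSimpArgs false
set_option linter.unusedVariables false
set_option maxHeartbeats 400000

namespace Pool.Agent.LangUnit

/-- The divisor bound. -/
theorem divisor_bound (ε : ℝ) (hε : 0 < ε) : ∃ C : ℝ, 0 < C ∧ ∀ n : ℕ, 0 < n →
    (n.divisors.card : ℝ) ≤ C * (n : ℝ) ^ ε := by
  obtain ⟨P, hP⟩ := exists_nat_gt ((2 : ℝ) ^ (1 / ε))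
  have hl2 : 0 < Real.log 2 := Real.log_pos (by norm_num)
  set C₀ : ℝ := 1 + 1 / (ε * Real.log 2) with hC₀
  have hC₀1 : 1 ≤ C₀ := by rw [hC₀]; have : 0 < 1 / (ε * Real.log 2) := by positivity
                           linarith
  refine ⟨C₀ ^ P, by positivity, ?_⟩
  intro n hn
  have h1 : (n.divisors.card : ℝ) = ∏ p ∈ n.primeFactors, ((n.factorization p : ℝ) + 1) := by
    rw [Nat.card_divisors hn.ne']
    push_cast
    rfl
  have h2 : (n : ℝ) ^ ε = ∏ p ∈ n.primeFactors, ((p : ℝ) ^ (n.factorization p)) ^ ε := by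
    rw [Real.finsetProd_rpow _ _ (fun p _ => by positivity)]
    congr 1
    have h3 := Nat.prod_factorization_pow_eq_self hn.ne'
    rw [Finsupp.prod, Nat.support_factorization] at h3
    conv_lhs => rw [← h3]
    push_cast
    rfl
  -- the factors
  have h3 : ∀ p ∈ n.primeFactors, ((n.factorization p : ℝ) + 1)
      ≤ (if p < P then C₀ else 1) * ((p : ℝ) ^ (n.factorization p)) ^ ε := by
    intro p hp
    have hp2 : 2 ≤ p := (Nat.prime_of_mem_primeFactors hp).two_le
    set v := n.factorization p with hv
    have hp2R : (2 : ℝ) ≤ p := by exact_mod_cast hp2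
    split_ifs with h
    · have h4 : (2 : ℝ) ^ (ε * v) ≤ ((p : ℝ) ^ v) ^ ε := by
        rw [← Real.rpow_natCast, ← Real.rpow_mul (by positivity), mul_comm ε]
        exact Real.rpow_le_rpow (by norm_num) hp2R (by positivity)
      have h5 : 1 + ε * v * Real.log 2 ≤ (2 : ℝ) ^ (ε * v) := by
        rw [Real.rpow_def_of_pos (by norm_num)]
        have := Real.add_one_le_exp (Real.log 2 * (ε * v))
        linarith
      have h6 : (v : ℝ) + 1 ≤ C₀ * (1 + ε * v * Real.log 2) := by
        have h7 : C₀ * (1 + ε * v * Real.log 2) = 1 + v + (1 / (ε * Real.log 2))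
            + ε * v * Real.log 2 := by
          rw [hC₀]
          field_simp
          ring
        rw [h7]
        have h8 : 0 < 1 / (ε * Real.log 2) := by positivity
        have h9 : 0 ≤ ε * v * Real.log 2 := by positivity
        linarith
      calc (v : ℝ) + 1 ≤ C₀ * (1 + ε * v * Real.log 2) := h6
        _ ≤ C₀ * (2 : ℝ) ^ (ε * v) := mul_le_mul_of_nonneg_left h5 (by linarith)
        _ ≤ _ := mul_le_mul_of_nonneg_left h4 (by linarith)
    · push Not at h
      rw [one_mul]
      have hpP : (P : ℝ) ≤ p := by exact_mod_cast h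
      have h4 : (2 : ℝ) ≤ (p : ℝ) ^ ε := by
        calc (2 : ℝ) = ((2 : ℝ) ^ (1 / ε)) ^ ε := by
              rw [← Real.rpow_mul (by norm_num), one_div_mul_cancel hε.ne', Real.rpow_one]
          _ ≤ (p : ℝ) ^ ε := by
              apply Real.rpow_le_rpow (by positivity) _ hε.le
              linarith
      have h5 : ((p : ℝ) ^ v) ^ ε = ((p : ℝ) ^ ε) ^ v := by
        rw [← Real.rpow_natCast, ← Real.rpow_mul (by positivity), mul_comm,
          Real.rpow_mul (by positivity), Real.rpow_natCast]
      rw [h5]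
      calc (v : ℝ) + 1 ≤ (2 : ℝ) ^ v := by
            have := Nat.lt_two_pow_self (n := v)
            exact_mod_cast this
        _ ≤ _ := pow_le_pow_left₀ (by norm_num) h4 v
  rw [h1, h2]
  calc ∏ p ∈ n.primeFactors, ((n.factorization p : ℝ) + 1)
      ≤ ∏ p ∈ n.primeFactors, (if p < P then C₀ else 1) * ((p : ℝ) ^ (n.factorization p)) ^ ε :=
        Finset.prod_le_prod (fun p _ => by positivity) h3
    _ = (∏ p ∈ n.primeFactors, (if p < P then C₀ else 1))
        * ∏ p ∈ n.primeFactors, ((p : ℝ) ^ (n.factorization p)) ^ ε := Finset.prod_mul_distrib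
    _ ≤ _ := by
        apply mul_le_mul_of_nonneg_right _ (Finset.prod_nonneg fun p _ => by positivity)
        rw [Finset.prod_ite]
        simp only [Finset.prod_const, one_pow, mul_one]
        apply pow_le_pow_right₀ hC₀1
        calc (Finset.filter (fun p => p < P) n.primeFactors).card ≤ (Finset.range P).card := by
              apply Finset.card_le_card
              intro p hp
              rw [Finset.mem_filter] at hp
              exact Finset.mem_range.mpr hp.2
          _ = P := Finset.card_range P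

/-- Integers up to `Y` without factors in `P`. -/
def cop (P : Finset ℕ) (Y : ℕ) : Finset ℕ := (Finset.Icc 1 Y).filter fun j => ∀ p ∈ P, ¬ p ∣ j

theorem cop_insert (P : Finset ℕ) (q : ℕ) (hq : q.Prime) (hP : ∀ p ∈ P, p.Prime) (hqP : q ∉ P)
    (Y : ℕ) : (cop (insert q P) Y).card + (cop P (Y / q)).card = (cop P Y).card := by
  have h1 : cop (insert q P) Y = (cop P Y).filter fun j => ¬ q ∣ j := by
    ext j
    simp only [cop, Finset.mem_filter, Finset.mem_insert, forall_eq_or_imp]
    tauto
  have h2 : (cop P (Y / q)).card = ((cop P Y).filter fun j => q ∣ j).card := by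
    apply Finset.card_nbij' (fun j => q * j) (fun j => j / q)
    · intro j hj
      simp only [cop, Finset.coe_filter, Finset.mem_Icc, Set.mem_ofPred_eq, Finset.mem_filter] at hj ⊢
      refine ⟨⟨⟨Nat.mul_pos hq.pos hj.1.1, ?_⟩, ?_⟩, Dvd.intro _ rfl⟩
      · have := (Nat.le_div_iff_mul_le hq.pos).mp hj.1.2
        rwa [mul_comm]
      · intro p hp hdvd
        rcases (hP p hp).dvd_mul.mp hdvd with h | h
        · rw [Nat.prime_dvd_prime_iff_eq (hP p hp) hq] at h
          rw [h] at hp
          exact hqP hp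
        · exact hj.2 p hp h
    · intro j hj
      simp only [cop, Finset.coe_filter, Finset.mem_Icc, Set.mem_ofPred_eq, Finset.mem_filter] at hj ⊢
      obtain ⟨⟨⟨h1, h2⟩, h3⟩, c, rfl⟩ := hj
      rw [Nat.mul_div_cancel_left _ hq.pos]
      refine ⟨⟨?_, ?_⟩, fun p hp hdvd => h3 p hp (hdvd.mul_left q)⟩
      · rcases Nat.eq_zero_or_pos c with h | h
        · rw [h, mul_zero] at h1
          omega
        · exact h
      · rw [Nat.le_div_iff_mul_le hq.pos, mul_comm]
        exact h2
    · intro j _
      simp only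
      rw [Nat.mul_div_cancel_left _ hq.pos]
    · intro j hj
      simp only [Finset.coe_filter, Set.mem_ofPred_eq] at hj
      exact Nat.mul_div_cancel' hj.2
  rw [h1, h2, add_comm]
  exact Finset.card_filter_add_card_filter_not _

theorem cop_estimate (P : Finset ℕ) (hP : ∀ p ∈ P, p.Prime) : ∀ Y : ℕ,
    |((cop P Y).card : ℝ) - Y * ∏ p ∈ P, (1 - 1 / (p : ℝ))| ≤ 2 ^ P.card - 1 := by
  classical
  induction P using Finset.induction_on with
  | empty =>
    intro Y
    simp [cop]
  | insert q P hqP ih =>
    intro Y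
    have hP' : ∀ p ∈ P, p.Prime := fun p hp => hP p (Finset.mem_insert_of_mem hp)
    have hq : q.Prime := hP q (Finset.mem_insert_self q P)
    have h1 := ih hP' Y
    have h2 := ih hP' (Y / q)
    have h3 := cop_insert P q hq hP' hqP Y
    have h3R : ((cop (insert q P) Y).card : ℝ) + (cop P (Y / q)).card = (cop P Y).card := by
      exact_mod_cast h3
    rw [Finset.prod_insert hqP, Finset.card_insert_of_notMem hqP]
    set W := ∏ p ∈ P, (1 - 1 / (p : ℝ)) with hW
    have hqR : (0 : ℝ) < q := by exact_mod_cast hq.pos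
    have hW0 : 0 ≤ W := by
      apply Finset.prod_nonneg
      intro p hp
      have : (1 : ℝ) ≤ p := by exact_mod_cast (hP' p hp).one_lt.le
      rw [sub_nonneg]
      exact (div_le_one (by linarith)).mpr this
    have hW1 : W ≤ 1 := by
      apply Finset.prod_le_one
      · intro p hp
        have : (1 : ℝ) ≤ p := by exact_mod_cast (hP' p hp).one_lt.le
        rw [sub_nonneg]
        exact (div_le_one (by linarith)).mpr this
      · intro p hp
        have : 0 ≤ 1 / (p : ℝ) := by positivity
        linarith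
    have h4 : (Y : ℝ) / q - 1 ≤ ((Y / q : ℕ) : ℝ) := by
      have h5 := Nat.lt_floor_add_one ((Y : ℝ) / q)
      rw [Nat.floor_div_eq_div] at h5
      linarith
    have h5 : ((Y / q : ℕ) : ℝ) ≤ (Y : ℝ) / q := Nat.cast_div_le
    rw [abs_le] at h1 h2 ⊢
    have h6 : ((Y / q : ℕ) : ℝ) * W ≤ (Y : ℝ) / q * W := mul_le_mul_of_nonneg_right h5 hW0
    have h7 : ((Y : ℝ) / q - 1) * W ≤ ((Y / q : ℕ) : ℝ) * W := mul_le_mul_of_nonneg_right h4 hW0
    have h8 : (Y : ℝ) * ((1 - 1 / (q : ℝ)) * W) = Y * W - Y / q * W := by ring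
    rw [h8, pow_succ]
    constructor
    · linarith [h1.1, h2.2]
    · linarith [h1.2, h2.1]

theorem prod_ge (P : Finset ℕ) (hP : ∀ p ∈ P, 2 ≤ p) :
    1 / ((P.card : ℝ) + 1) ≤ ∏ p ∈ P, (1 - 1 / (p : ℝ)) := by
  classical
  induction P using Finset.induction_on_max with
  | empty => simp
  | insert q P hlt ih =>
    have hqP : q ∉ P := fun h => lt_irrefl q (hlt q h)
    rw [Finset.prod_insert hqP, Finset.card_insert_of_notMem hqP]
    have h1 := ih fun p hp => hP p (Finset.mem_insert_of_mem hp)
    have h2 : P.card + 2 ≤ q := by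
      have h3 : P ⊆ Finset.Ico 2 q := by
        intro p hp
        rw [Finset.mem_Ico]
        exact ⟨hP p (Finset.mem_insert_of_mem hp), hlt p hp⟩
      have h4 := Finset.card_le_card h3
      rw [Nat.card_Ico] at h4
      have h5 := hP q (Finset.mem_insert_self q P)
      omega
    have h3 : ((P.card : ℝ) + 2) ≤ q := by exact_mod_cast h2
    have hc : (0 : ℝ) ≤ P.card := Nat.cast_nonneg _
    have h4 : 1 - 1 / ((P.card : ℝ) + 2) ≤ 1 - 1 / (q : ℝ) := by
      have := one_div_le_one_div_of_le (by linarith) h3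
      linarith
    have h5 : 0 ≤ 1 - 1 / ((P.card : ℝ) + 2) := by
      rw [sub_nonneg]
      exact (div_le_one (by linarith)).mpr (by linarith)
    calc 1 / (((P.card + 1 : ℕ) : ℝ) + 1)
        = (1 - 1 / ((P.card : ℝ) + 2)) * (1 / ((P.card : ℝ) + 1)) := by
          push_cast
          field_simp
          ring
      _ ≤ (1 - 1 / (q : ℝ)) * ∏ p ∈ P, (1 - 1 / (p : ℝ)) :=
          mul_le_mul h4 h1 (by positivity) (h5.trans h4)

/-- Coprime integers in a short interval. -/
theorem coprime_count (n : ℕ) (hn : 0 < n) (Y : ℕ) :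
    (Y : ℝ) ≤ (Real.log n / Real.log 2 + 1)
      * (((Finset.Icc 1 Y).filter fun j => j.Coprime n).card + n.divisors.card) := by
  have hl2 : 0 < Real.log 2 := Real.log_pos (by norm_num)
  have h1 := cop_estimate n.primeFactors (fun p hp => Nat.prime_of_mem_primeFactors hp) Y
  have h2 := prod_ge n.primeFactors (fun p hp => (Nat.prime_of_mem_primeFactors hp).two_le)
  have h3 : cop n.primeFactors Y = (Finset.Icc 1 Y).filter fun j => j.Coprime n := by
    ext j
    simp only [cop, Finset.mem_filter]
    refine and_congr_right fun hj => ?_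
    constructor
    · intro h
      apply Nat.Coprime.symm
      apply Nat.coprime_of_dvd
      intro p hp hpn hpj
      exact h p (Nat.mem_primeFactors.mpr ⟨hp, hpn, hn.ne'⟩) hpj
    · intro h p hp hpj
      have h4 := Nat.mem_primeFactors.mp hp
      have h5 := Nat.dvd_gcd hpj h4.2.1
      rw [h] at h5
      exact h4.1.one_lt.ne' (Nat.dvd_one.mp h5)
  rw [h3] at h1
  have h4 : (2 : ℝ) ^ n.primeFactors.card ≤ n.divisors.card := by
    have h5 : 2 ^ n.primeFactors.card ≤ n.divisors.card := by
      rw [Nat.card_divisors hn.ne']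
      rw [← Finset.prod_const]
      apply Finset.prod_le_prod'
      intro p hp
      have := (Nat.prime_of_mem_primeFactors hp).factorization_pos_of_dvd hn.ne'
        (Nat.dvd_of_mem_primeFactors hp)
      omega
    exact_mod_cast h5
  have h5 : (n.primeFactors.card : ℝ) ≤ Real.log n / Real.log 2 := by
    rw [le_div_iff₀ hl2, ← Real.log_pow]
    apply Real.log_le_log (by positivity)
    have h6 : 2 ^ n.primeFactors.card ≤ n := by
      calc 2 ^ n.primeFactors.card ≤ ∏ p ∈ n.primeFactors, p := by
            rw [← Finset.prod_const]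
            apply Finset.prod_le_prod'
            intro p hp
            exact (Nat.prime_of_mem_primeFactors hp).two_le
        _ ≤ n := Nat.le_of_dvd hn (Nat.prod_primeFactors_dvd n)
    exact_mod_cast h6
  rw [abs_le] at h1
  set N : ℝ := (((Finset.Icc 1 Y).filter fun j => j.Coprime n).card : ℝ) with hN
  have hN0 : 0 ≤ N := by rw [hN]; positivity
  have h6 : (Y : ℝ) * (1 / ((n.primeFactors.card : ℝ) + 1)) ≤ N + n.divisors.card := by
    have h7 := mul_le_mul_of_nonneg_left h2 (Nat.cast_nonneg (α := ℝ) Y)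
    linarith [h1.1]
  rw [mul_one_div, div_le_iff₀ (by positivity)] at h6
  calc (Y : ℝ) ≤ (N + n.divisors.card) * ((n.primeFactors.card : ℝ) + 1) := h6
    _ ≤ (N + n.divisors.card) * (Real.log n / Real.log 2 + 1) :=
        mul_le_mul_of_nonneg_left (by linarith) (by positivity)
    _ = _ := by ring

end Pool.Agent.LangUnit
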